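import Pool.Agent.Helper68_Leo4.Basic

/-!
Squad leo4, module SCL: bounds for normalised quadruples and scaling to the compact region.
-/

set_option autoImplicit false

open NumberField IsDedekindDomain Module

namespace Pool.Agent.Leo4.H37

theorem g_sq : g ^ 2 = g + 1 := Real.goldenRatio_sq

theorem g_lt : g < 1.6181 := by
  have h1 := g_sq
  have h2 : 1 < g := Real.one_lt_goldenRatio
  nlinarith

theorem g_gt : 1.618 < g := by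
  have h1 := g_sq
  have h2 : 1 < g := Real.one_lt_goldenRatio
  nlinarith

theorem g2_lt : g ^ 2 < 2.6181 := by rw [g_sq]; linarith [g_lt]

theorem g3_lt : g ^ 3 < 4.2362 := by
  have : g ^ 3 = 2 * g + 1 := by
    have h1 := g_sq
    calc g ^ 3 = g * g ^ 2 := by ring
      _ = g * (g + 1) := by rw [h1]
      _ = g ^ 2 + g := by ring
      _ = 2 * g + 1 := by rw [h1]; ring
  rw [this]; linarith [g_lt]

/-! ### the real versions -/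

theorem e1_four : e1 (4 : O) = 4 := e1_ofNat 4

theorem e2_four : e2 (4 : O) = 4 := e2_ofNat 4

theorem e1_two : e1 (2 : O) = 2 := e1_ofNat 2

theorem e2_two : e2 (2 : O) = 2 := e2_ofNat 2

theorem e1_three : e1 (3 : O) = 3 := e1_ofNat 3

theorem e2_three : e2 (3 : O) = 3 := e2_ofNat 3

theorem e1_fP (a b c : O) : e1 (fP a b c) = e1 b ^ 2 - e1 a * e1 c := by
  rw [fP, e1_sub, e1_pow, e1_mul]

theorem e2_fP (a b c : O) : e2 (fP a b c) = e2 b ^ 2 - e2 a * e2 c := by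
  rw [fP, e2_sub, e2_pow, e2_mul]

theorem e1_fM (a b c d : O) : e1 (fM a b c d) =
    4 * (e1 b ^ 2 - e1 a * e1 c) * (e1 c ^ 2 - e1 b * e1 d) - (e1 b * e1 c - e1 a * e1 d) ^ 2 := by
  simp only [fM, fP, fQ, fR, e1_sub, e1_pow, e1_mul, e1_four]

theorem e2_fM (a b c d : O) : e2 (fM a b c d) =
    4 * (e2 b ^ 2 - e2 a * e2 c) * (e2 c ^ 2 - e2 b * e2 d) - (e2 b * e2 c - e2 a * e2 d) ^ 2 := by
  simp only [fM, fP, fQ, fR, e2_sub, e2_pow, e2_mul, e2_four]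

theorem e1_fX (a b c d : O) : e1 (fX a b c d) =
    2 * e1 b ^ 3 - 3 * e1 a * e1 b * e1 c + e1 a ^ 2 * e1 d := by
  simp only [fX, e1_sub, e1_add, e1_pow, e1_mul, e1_two, e1_three]

theorem e2_fX (a b c d : O) : e2 (fX a b c d) =
    2 * e2 b ^ 3 - 3 * e2 a * e2 b * e2 c + e2 a ^ 2 * e2 d := by
  simp only [fX, e2_sub, e2_add, e2_pow, e2_mul, e2_two, e2_three]

/-- `X² + a² M = 4 P³`. -/
theorem syz (a b c d : ℝ) :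
    (2 * b ^ 3 - 3 * a * b * c + a ^ 2 * d) ^ 2 +
      a ^ 2 * (4 * (b ^ 2 - a * c) * (c ^ 2 - b * d) - (b * c - a * d) ^ 2) =
    4 * (b ^ 2 - a * c) ^ 3 := by ring

theorem syz1 (a b c d : O) :
    e1 (fX a b c d) ^ 2 + e1 a ^ 2 * e1 (fM a b c d) = 4 * e1 (fP a b c) ^ 3 := by
  rw [e1_fX, e1_fM, e1_fP]; ring

theorem syz2 (a b c d : O) :
    e2 (fX a b c d) ^ 2 + e2 a ^ 2 * e2 (fM a b c d) = 4 * e2 (fP a b c) ^ 3 := by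
  rw [e2_fX, e2_fM, e2_fP]; ring

/-- the bounds for real numbers. -/
theorem bnd_real {t P1 P2 M1 M2 : ℝ} (ht : 0 < t) (hP1 : 0 < P1) (hP2 : 0 < P2) (hM1 : 0 < M1)
    (_hM2 : 0 < M2) (hP : Bal P1 P2) (hM : Bal M1 M2) (h1 : 4 * (P1 * P2) ^ 2 ≤ M1 * M2)
    (h2 : M1 * M2 ≤ t ^ 8) :
    P1 * P2 ≤ t ^ 4 / 2 ∧ P1 ≤ 1.15 * t ^ 2 ∧ M1 ≤ g * t ^ 4 ∧ P1 ^ 2 ≤ g ^ 3 * M1 / 2 ∧
      P1 ^ 2 ≤ g ^ 2 * (P1 * P2) := by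
  obtain ⟨_, _, hP12, hP21⟩ := hP
  obtain ⟨_, _, hM12, hM21⟩ := hM
  have hg0 : 0 < g := Real.goldenRatio_pos
  have a1 : P1 * P2 ≤ t ^ 4 / 2 := by
    have : (P1 * P2) ^ 2 ≤ (t ^ 4 / 2) ^ 2 := by nlinarith
    exact le_of_sq_le_sq this (by positivity)
  have a2 : P1 ^ 2 ≤ g ^ 2 * (P1 * P2) := by nlinarith
  have a3 : M1 ^ 2 ≤ g ^ 2 * (M1 * M2) := by nlinarith
  have a4 : M1 * M2 ≤ g ^ 2 * M1 ^ 2 := by nlinarith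
  refine ⟨a1, ?_, ?_, ?_, a2⟩
  · have h3 : P1 ^ 2 ≤ (1.15 * t ^ 2) ^ 2 := by
      have h4 : g ^ 2 * (P1 * P2) ≤ 2.6181 * (t ^ 4 / 2) :=
        mul_le_mul g2_lt.le a1 (by positivity) (by norm_num)
      nlinarith [pow_pos ht 4]
    exact le_of_sq_le_sq h3 (by positivity)
  · have h3 : M1 ^ 2 ≤ (g * t ^ 4) ^ 2 := by
      have h4 : g ^ 2 * (M1 * M2) ≤ g ^ 2 * t ^ 8 := mul_le_mul_of_nonneg_left h2 (by positivity)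
      calc M1 ^ 2 ≤ g ^ 2 * t ^ 8 := a3.trans h4
        _ = (g * t ^ 4) ^ 2 := by ring
    exact le_of_sq_le_sq h3 (by positivity)
  · have h3 : (P1 ^ 2) ^ 2 ≤ (g ^ 3 * M1 / 2) ^ 2 := by
      have h4 : (P1 ^ 2) ^ 2 ≤ (g ^ 2 * (P1 * P2)) ^ 2 := by
        apply pow_le_pow_left₀ (by positivity) a2
      have h5 : (g ^ 2 * (P1 * P2)) ^ 2 ≤ g ^ 4 * (M1 * M2 / 4) := by
        have : g ^ 4 * (4 * (P1 * P2) ^ 2) ≤ g ^ 4 * (M1 * M2) :=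
          mul_le_mul_of_nonneg_left h1 (by positivity)
        calc (g ^ 2 * (P1 * P2)) ^ 2 = g ^ 4 * (4 * (P1 * P2) ^ 2) / 4 := by ring
          _ ≤ g ^ 4 * (M1 * M2) / 4 := by linarith
          _ = g ^ 4 * (M1 * M2 / 4) := by ring
      have h6 : g ^ 4 * (M1 * M2 / 4) ≤ g ^ 4 * (g ^ 2 * M1 ^ 2 / 4) :=
        mul_le_mul_of_nonneg_left (by linarith) (by positivity)
      calc (P1 ^ 2) ^ 2 ≤ g ^ 4 * (g ^ 2 * M1 ^ 2 / 4) := h4.trans (h5.trans h6)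
        _ = (g ^ 3 * M1 / 2) ^ 2 := by ring
    exact le_of_sq_le_sq h3 (by positivity)

/-- bound for `a`. -/
theorem bnd_a {t a P M X : ℝ} (ht : 0 < t) (hP : 0 < P) (hM : 0 < M)
    (hs : X ^ 2 + a ^ 2 * M = 4 * P ^ 3) (h1 : P ^ 2 ≤ g ^ 3 * M / 2) (h2 : P ≤ 1.15 * t ^ 2) :
    a ^ 2 ≤ 2 * g ^ 3 * P ∧ |a| ≤ 4 * t := by
  have hg0 : 0 < g := Real.goldenRatio_pos
  have a1 : a ^ 2 ≤ 2 * g ^ 3 * P := by
    have h3 : a ^ 2 * M ≤ 2 * g ^ 3 * P * M := by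
      have h4 : a ^ 2 * M ≤ 4 * P ^ 3 := by nlinarith [sq_nonneg X]
      have h5 : 4 * P ^ 3 ≤ 2 * g ^ 3 * P * M := by
        have : 4 * P * P ^ 2 ≤ 4 * P * (g ^ 3 * M / 2) :=
          mul_le_mul_of_nonneg_left h1 (by positivity)
        calc 4 * P ^ 3 = 4 * P * P ^ 2 := by ring
          _ ≤ 4 * P * (g ^ 3 * M / 2) := this
          _ = 2 * g ^ 3 * P * M := by ring
      exact h4.trans h5
    exact le_of_mul_le_mul_right h3 hM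
  refine ⟨a1, ?_⟩
  have h3 : |a| ^ 2 ≤ (4 * t) ^ 2 := by
    rw [sq_abs]
    have h4 : 2 * g ^ 3 * P ≤ 2 * 4.2362 * (1.15 * t ^ 2) := by
      apply mul_le_mul _ h2 hP.le (by norm_num)
      linarith [g3_lt]
    nlinarith [sq_nonneg t]
  exact le_of_sq_le_sq h3 (by positivity)

theorem bal_symm {x y : ℝ} (h : Bal x y) : Bal y x := ⟨h.2.1, h.1, h.2.2.2, h.2.2.1⟩

/-- BND: all the bounds for a normalised quadruple. -/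
structure Bnd (t : ℝ) (v : V) : Prop where
  pp : e1 (fP v.1 v.2.1 v.2.2.1) * e2 (fP v.1 v.2.1 v.2.2.1) ≤ t ^ 4 / 2
  p1 : e1 (fP v.1 v.2.1 v.2.2.1) ≤ 1.15 * t ^ 2
  p2 : e2 (fP v.1 v.2.1 v.2.2.1) ≤ 1.15 * t ^ 2
  p1q : e1 (fP v.1 v.2.1 v.2.2.1) ^ 2 ≤
    g ^ 2 * (e1 (fP v.1 v.2.1 v.2.2.1) * e2 (fP v.1 v.2.1 v.2.2.1))
  p2q : e2 (fP v.1 v.2.1 v.2.2.1) ^ 2 ≤
    g ^ 2 * (e1 (fP v.1 v.2.1 v.2.2.1) * e2 (fP v.1 v.2.1 v.2.2.1))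
  m1 : e1 (fM v.1 v.2.1 v.2.2.1 v.2.2.2) ≤ g * t ^ 4
  m2 : e2 (fM v.1 v.2.1 v.2.2.1 v.2.2.2) ≤ g * t ^ 4
  a1P : e1 v.1 ^ 2 ≤ 2 * g ^ 3 * e1 (fP v.1 v.2.1 v.2.2.1)
  a2P : e2 v.1 ^ 2 ≤ 2 * g ^ 3 * e2 (fP v.1 v.2.1 v.2.2.1)
  a1 : |e1 v.1| ≤ 4 * t
  a2 : |e2 v.1| ≤ 4 * t
  aq : (nm v.1 : ℝ) ^ 2 ≤ 72 * (nm (fP v.1 v.2.1 v.2.2.1) : ℝ)

theorem bnd {t : ℝ} (ht : 0 < t) {v : V} (h : Nrm (t ^ 8) v) : Bnd t v := by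
  have hs : 4 * (e1 (fP v.1 v.2.1 v.2.2.1) * e2 (fP v.1 v.2.1 v.2.2.1)) ^ 2 ≤
      e1 (fM v.1 v.2.1 v.2.2.1 v.2.2.2) * e2 (fM v.1 v.2.1 v.2.2.1 v.2.2.2) := by
    rw [← nm_eq, ← nm_eq]
    exact_mod_cast h.small
  have hl : e1 (fM v.1 v.2.1 v.2.2.1 v.2.2.2) * e2 (fM v.1 v.2.1 v.2.2.1 v.2.2.2) ≤ t ^ 8 := by
    rw [← nm_eq]; exact h.mle
  obtain ⟨b1, b2, b3, b4, b5⟩ := bnd_real ht h.ppos1 h.ppos2 h.mpos1 h.mpos2 h.pbal h.mbal hs hl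
  obtain ⟨-, c2, c3, c4, c5⟩ := bnd_real ht h.ppos2 h.ppos1 h.mpos2 h.mpos1 (bal_symm h.pbal)
    (bal_symm h.mbal) (by rw [mul_comm (e2 _), mul_comm (e2 (fM _ _ _ _))]; exact hs)
    (by rw [mul_comm]; exact hl)
  obtain ⟨d1, d2⟩ := bnd_a ht h.ppos1 h.mpos1 (syz1 _ _ _ _) b4 b2
  obtain ⟨f1, f2⟩ := bnd_a ht h.ppos2 h.mpos2 (syz2 _ _ _ _) c4 c2
  refine ⟨b1, b2, c2, b5, by rw [mul_comm (e1 _)]; exact c5, b3, c3, d1, f1, d2, f2, ?_⟩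
  rw [nm_eq, nm_eq, mul_pow]
  have h1 : e1 v.1 ^ 2 * e2 v.1 ^ 2 ≤ (2 * g ^ 3 * e1 (fP v.1 v.2.1 v.2.2.1)) *
      (2 * g ^ 3 * e2 (fP v.1 v.2.1 v.2.2.1)) :=
    mul_le_mul d1 f1 (sq_nonneg _) (le_trans (sq_nonneg _) d1)
  have h2 : (2 * g ^ 3 * e1 (fP v.1 v.2.1 v.2.2.1)) * (2 * g ^ 3 * e2 (fP v.1 v.2.1 v.2.2.1)) =
      (4 * (g ^ 3) ^ 2) * (e1 (fP v.1 v.2.1 v.2.2.1) * e2 (fP v.1 v.2.1 v.2.2.1)) := by ring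
  have h3 : 4 * (g ^ 3) ^ 2 ≤ 72 := by
    have h4 := g3_lt
    have h5 : 0 < g ^ 3 := pow_pos Real.goldenRatio_pos 3
    nlinarith
  have h4 : 0 < e1 (fP v.1 v.2.1 v.2.2.1) * e2 (fP v.1 v.2.1 v.2.2.1) :=
    mul_pos h.ppos1 h.ppos2
  rw [h2] at h1
  exact h1.trans (mul_le_mul_of_nonneg_right h3 h4.le)

end Pool.Agent.Leo4.H37
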