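import Pool.Agent.Helper68_Leo4.Basic

/-!
Squad leo4, module BOX: elements of `O` in a box.
-/

set_option autoImplicit false

open NumberField IsDedekindDomain Module

namespace Pool.Agent.Leo4.H37

theorem box : BoxStmt := by
  intro α₁ α₂ L₁ L₂ hL₁ hL₂
  set S : Set O := {x : O | α₁ ≤ e1 x ∧ e1 x ≤ α₁ + L₁ ∧ α₂ ≤ e2 x ∧ e2 x ≤ α₂ + L₂} with hS
  set n : ℕ := ⌊L₁ * L₂⌋₊ + 1 with hn
  have hprod : 0 ≤ L₁ * L₂ := mul_nonneg hL₁ hL₂
  have hn1 : L₁ * L₂ < n := by
    rw [hn]; push_cast; exact Nat.lt_floor_add_one _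
  have hn2 : (n : ℝ) ≤ L₁ * L₂ + 1 := by
    rw [hn]; push_cast; linarith [Nat.floor_le hprod]
  have hn0 : (0 : ℝ) < n := lt_of_le_of_lt hprod hn1
  have hnn : 0 < n := by rw [hn]; omega
  let F : O → ℕ := fun x => min ⌊(n : ℝ) * (e1 x - α₁) / L₁⌋₊ (n - 1)
  have hmaps : ∀ x ∈ S, F x ∈ (Finset.range n : Set ℕ) := by
    intro x _
    simp only [F, Finset.coe_range, Set.mem_Iio]
    omega
  have hinj : Set.InjOn F S := by
    intro x hx y hy hxy
    by_contra hne
    have h1 := one_le_abs_mul (sub_ne_zero.mpr hne)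
    rw [e1_sub, e2_sub] at h1
    obtain ⟨hx1, hx2, hx3, hx4⟩ := hx
    obtain ⟨hy1, hy2, hy3, hy4⟩ := hy
    have h2 : |e2 x - e2 y| ≤ L₂ := by rw [abs_le]; constructor <;> linarith
    have h3 : |e1 x - e1 y| * n ≤ L₁ := by
      rcases hL₁.eq_or_lt with h0 | h0
      · have : e1 x - e1 y = 0 := by linarith
        rw [this, abs_zero, zero_mul]; exact hL₁
      · -- both quotients lie in `[k, k + 1]`
        have key : ∀ z : O, α₁ ≤ e1 z → e1 z ≤ α₁ + L₁ →
            ((F z : ℕ) : ℝ) ≤ (n : ℝ) * (e1 z - α₁) / L₁ ∧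
              (n : ℝ) * (e1 z - α₁) / L₁ ≤ ((F z : ℕ) : ℝ) + 1 := by
          intro z hz1 hz2
          have hu0 : 0 ≤ (n : ℝ) * (e1 z - α₁) / L₁ :=
            div_nonneg (mul_nonneg hn0.le (by linarith)) h0.le
          have hun : (n : ℝ) * (e1 z - α₁) / L₁ ≤ n := by
            rw [div_le_iff₀ h0]
            exact mul_le_mul_of_nonneg_left (by linarith) hn0.le
          simp only [F]
          rcases le_total ⌊(n : ℝ) * (e1 z - α₁) / L₁⌋₊ (n - 1) with h4 | h4
          · rw [min_eq_left h4]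
            exact ⟨Nat.floor_le hu0, (Nat.lt_floor_add_one _).le⟩
          · rw [min_eq_right h4]
            refine ⟨?_, ?_⟩
            · have h5 : ((n - 1 : ℕ) : ℝ) ≤ (⌊(n : ℝ) * (e1 z - α₁) / L₁⌋₊ : ℝ) := by
                exact_mod_cast h4
              exact h5.trans (Nat.floor_le hu0)
            · have h5 : ((n - 1 : ℕ) : ℝ) + 1 = n := by
                have : n - 1 + 1 = n := by omega
                exact_mod_cast this
              rw [h5]; exact hun
        obtain ⟨a1, a2⟩ := key x hx1 hx2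
        obtain ⟨b1, b2⟩ := key y hy1 hy2
        rw [← hxy] at b1 b2
        have h6 : |(n : ℝ) * (e1 x - α₁) / L₁ - (n : ℝ) * (e1 y - α₁) / L₁| ≤ 1 := by
          rw [abs_le]; constructor <;> linarith
        have h7 : (n : ℝ) * (e1 x - α₁) / L₁ - (n : ℝ) * (e1 y - α₁) / L₁ =
            (e1 x - e1 y) * n / L₁ := by ring
        rw [h7, abs_div, abs_mul, abs_of_pos h0, abs_of_pos hn0, div_le_one h0] at h6
        exact h6
    have h4 : |e1 x - e1 y| * |e2 x - e2 y| * n ≤ L₁ * L₂ := by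
      calc |e1 x - e1 y| * |e2 x - e2 y| * n = (|e1 x - e1 y| * n) * |e2 x - e2 y| := by ring
        _ ≤ L₁ * L₂ := mul_le_mul h3 h2 (abs_nonneg _) hL₁
    have h5 : (n : ℝ) ≤ |e1 x - e1 y| * |e2 x - e2 y| * n := by
      calc (n : ℝ) = 1 * n := by ring
        _ ≤ _ := mul_le_mul_of_nonneg_right h1 hn0.le
    linarith
  have hfin : ((Finset.range n : Finset ℕ) : Set ℕ).Finite := Finset.finite_toSet _
  refine ⟨Set.Finite.of_injOn hmaps hinj hfin, ?_⟩
  have h1 := Set.ncard_le_ncard_of_injOn F hmaps hinj hfin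
  rw [Set.ncard_coe_finset, Finset.card_range] at h1
  have h2 : (S.ncard : ℝ) ≤ n := by exact_mod_cast h1
  exact h2.trans hn2

end Pool.Agent.Leo4.H37
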