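import Pool.Agent.Helper37_Leo4.Bnd

/-!
Squad leo4, module CUD: the number of `d` for given `a, b, c`.
-/

set_option autoImplicit false

open NumberField IsDedekindDomain Module

namespace Pool.Agent.Leo4.H37

/-- upper end of the interval of `|X|`. -/
noncomputable def hi (P : ℝ) : ℝ := Real.sqrt (4 * P ^ 3)

/-- length of the interval of `|X|`. -/
noncomputable def wd (t a P : ℝ) : ℝ := min (hi P) (g * a ^ 2 * t ^ 4 / hi P)

theorem hi_pos {P : ℝ} (hP : 0 < P) : 0 < hi P := Real.sqrt_pos.mpr (by positivity)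

theorem hi_sq {P : ℝ} (hP : 0 < P) : hi P ^ 2 = 4 * P ^ 3 := Real.sq_sqrt (by positivity)

theorem wd_nonneg {t a P : ℝ} (hP : 0 < P) : 0 ≤ wd t a P := by
  have h1 := hi_pos hP
  have h2 : 0 < g := Real.goldenRatio_pos
  exact le_min h1.le (by positivity)

theorem abs_X {t a P M X : ℝ} (hP : 0 < P) (hM : 0 < M) (hMt : M ≤ g * t ^ 4)
    (hs : X ^ 2 + a ^ 2 * M = 4 * P ^ 3) : hi P - wd t a P ≤ |X| ∧ |X| ≤ hi P := by
  have h1 := hi_pos hP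
  have h2 := hi_sq hP
  have hg : 0 < g := Real.goldenRatio_pos
  constructor
  · rcases le_total (hi P) (g * a ^ 2 * t ^ 4 / hi P) with h3 | h3
    · rw [wd, min_eq_left h3]; simp
    · rw [wd, min_eq_right h3]
      set B := g * a ^ 2 * t ^ 4 with hB
      have hB0 : 0 ≤ B := by positivity
      have h4 : B ≤ hi P ^ 2 := by
        rw [div_le_iff₀ h1] at h3
        calc B ≤ hi P * hi P := h3
          _ = hi P ^ 2 := by ring
      have h5 : (hi P - B / hi P) ^ 2 ≤ hi P ^ 2 - B := by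
        have h6 : (hi P - B / hi P) ^ 2 = hi P ^ 2 - 2 * B + B * (B / hi P ^ 2) := by
          field_simp; ring
        have h7 : B / hi P ^ 2 ≤ 1 := by
          rw [div_le_one (by positivity)]; exact h4
        rw [h6]
        nlinarith
      have h8 : hi P ^ 2 - B ≤ |X| ^ 2 := by
        rw [sq_abs, h2]
        have : a ^ 2 * M ≤ B := by
          rw [hB]
          calc a ^ 2 * M ≤ a ^ 2 * (g * t ^ 4) := mul_le_mul_of_nonneg_left hMt (sq_nonneg a)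
            _ = g * a ^ 2 * t ^ 4 := by ring
        linarith
      exact le_of_sq_le_sq (h5.trans h8) (abs_nonneg X)
  · have h3 : |X| ^ 2 ≤ hi P ^ 2 := by
      rw [sq_abs, h2]
      have : 0 ≤ a ^ 2 * M := by positivity
      linarith
    exact le_of_sq_le_sq h3 h1.le

theorem wd_cube {t a P : ℝ} (hP : 0 < P) (ha : a ≠ 0) :
    (wd t a P / a ^ 2) ^ 3 ≤ g ^ 2 * t ^ 8 / (a ^ 2 * hi P) := by
  have h1 := hi_pos hP
  have hg : 0 < g := Real.goldenRatio_pos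
  have hw := wd_nonneg (t := t) (a := a) hP
  have ha2 : 0 < a ^ 2 := by positivity
  have h3 : wd t a P ≤ hi P := min_le_left _ _
  have h4 : wd t a P ≤ g * a ^ 2 * t ^ 4 / hi P := min_le_right _ _
  have h5 : wd t a P ^ 3 ≤ hi P * (g * a ^ 2 * t ^ 4 / hi P) ^ 2 := by
    calc wd t a P ^ 3 = wd t a P * wd t a P ^ 2 := by ring
      _ ≤ _ := mul_le_mul h3 (pow_le_pow_left₀ hw h4 2) (by positivity) h1.le
  rw [div_pow]
  calc wd t a P ^ 3 / (a ^ 2) ^ 3 ≤ (hi P * (g * a ^ 2 * t ^ 4 / hi P) ^ 2) / (a ^ 2) ^ 3 :=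
        div_le_div_of_nonneg_right h5 (by positivity)
    _ = g ^ 2 * t ^ 8 / (a ^ 2 * hi P) := by field_simp

theorem cud (hbox : BoxStmt) : CudStmt := by
  refine ⟨4, by norm_num, ?_⟩
  intro t a b c ht
  set S : Set O := {d : O | Nrm (t ^ 8) (a, b, c, d)} with hS
  set T : ℝ := t ^ (16 / 3 : ℝ) * |(nm a : ℝ)| ^ (-(2 / 3) : ℝ) *
        |(nm (fP a b c) : ℝ)| ^ (-(1 / 2) : ℝ) with hT
  have ht0 : 0 < t := by linarith
  have hT0 : 0 ≤ T := by positivity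
  rcases S.eq_empty_or_nonempty with h0 | ⟨d0, hd0⟩
  · rw [h0]
    refine ⟨Set.finite_empty, ?_⟩
    rw [Set.ncard_empty]; push_cast; linarith
  have hd0' : Nrm (t ^ 8) (a, b, c, d0) := hd0
  have hP1 : 0 < e1 (fP a b c) := hd0'.ppos1
  have hP2 : 0 < e2 (fP a b c) := hd0'.ppos2
  have ha1 : 0 < e1 a := hd0'.apos
  have ha : a ≠ 0 := by
    intro h; rw [h, e1_zero] at ha1; exact lt_irrefl _ ha1
  have ha2 : e2 a ≠ 0 := e2_ne_zero ha
  set P1 := e1 (fP a b c) with hP1d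
  set P2 := e2 (fP a b c) with hP2d
  set K1 : ℝ := 2 * e1 b ^ 3 - 3 * e1 a * e1 b * e1 c with hK1
  set K2 : ℝ := 2 * e2 b ^ 3 - 3 * e2 a * e2 b * e2 c with hK2
  set W1 := wd t (e1 a) P1 with hW1
  set W2 := wd t (e2 a) P2 with hW2
  set L1 := W1 / e1 a ^ 2 with hL1
  set L2 := W2 / e2 a ^ 2 with hL2
  have hq1 : 0 < e1 a ^ 2 := by positivity
  have hq2 : 0 < e2 a ^ 2 := by positivity
  have hL1n : 0 ≤ L1 := div_nonneg (wd_nonneg hP1) hq1.le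
  have hL2n : 0 ≤ L2 := div_nonneg (wd_nonneg hP2) hq2.le
  obtain ⟨f1, c1⟩ := hbox ((hi P1 - W1 - K1) / e1 a ^ 2) ((hi P2 - W2 - K2) / e2 a ^ 2) L1 L2
    hL1n hL2n
  obtain ⟨f2, c2⟩ := hbox ((hi P1 - W1 - K1) / e1 a ^ 2) ((-hi P2 - K2) / e2 a ^ 2) L1 L2
    hL1n hL2n
  set B1 : Set O := {x : O | (hi P1 - W1 - K1) / e1 a ^ 2 ≤ e1 x ∧
    e1 x ≤ (hi P1 - W1 - K1) / e1 a ^ 2 + L1 ∧ (hi P2 - W2 - K2) / e2 a ^ 2 ≤ e2 x ∧
    e2 x ≤ (hi P2 - W2 - K2) / e2 a ^ 2 + L2} with hB1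
  set B2 : Set O := {x : O | (hi P1 - W1 - K1) / e1 a ^ 2 ≤ e1 x ∧
    e1 x ≤ (hi P1 - W1 - K1) / e1 a ^ 2 + L1 ∧ (-hi P2 - K2) / e2 a ^ 2 ≤ e2 x ∧
    e2 x ≤ (-hi P2 - K2) / e2 a ^ 2 + L2} with hB2
  have hsub : S ⊆ B1 ∪ B2 := by
    intro d hd
    have hd' : Nrm (t ^ 8) (a, b, c, d) := hd
    have hb := bnd ht0 hd'
    have hX1 := abs_X (t := t) (a := e1 a) (X := e1 (fX a b c d)) hP1 hd'.mpos1 hb.m1 (syz1 a b c d)
    have hX2 := abs_X (t := t) (a := e2 a) (X := e2 (fX a b c d)) hP2 hd'.mpos2 hb.m2 (syz2 a b c d)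
    have hx0 : 0 ≤ e1 (fX a b c d) := hd'.xpos
    rw [abs_of_nonneg hx0] at hX1
    have h1 : e1 (fX a b c d) = K1 + e1 a ^ 2 * e1 d := by rw [e1_fX]
    have h2 : e2 (fX a b c d) = K2 + e2 a ^ 2 * e2 d := by rw [e2_fX]
    rw [h1] at hX1
    rw [h2] at hX2
    have g1 : (hi P1 - W1 - K1) / e1 a ^ 2 ≤ e1 d := by
      rw [div_le_iff₀ hq1]; linarith [hX1.1]
    have g2 : e1 d ≤ (hi P1 - W1 - K1) / e1 a ^ 2 + L1 := by
      rw [hL1, ← add_div, le_div_iff₀ hq1]; linarith [hX1.2]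
    rcases le_total 0 (K2 + e2 a ^ 2 * e2 d) with h3 | h3
    · left
      rw [abs_of_nonneg h3] at hX2
      refine ⟨g1, g2, ?_, ?_⟩
      · rw [div_le_iff₀ hq2]; linarith [hX2.1]
      · rw [hL2, ← add_div, le_div_iff₀ hq2]; linarith [hX2.2]
    · right
      rw [abs_of_nonpos h3] at hX2
      refine ⟨g1, g2, ?_, ?_⟩
      · rw [div_le_iff₀ hq2]; linarith [hX2.2]
      · rw [hL2, ← add_div, le_div_iff₀ hq2]; linarith [hX2.1]
  have hfin : (B1 ∪ B2).Finite := f1.union f2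
  refine ⟨hfin.subset hsub, ?_⟩
  have hc : (S.ncard : ℝ) ≤ 2 * (L1 * L2 + 1) := by
    have h1 : S.ncard ≤ B1.ncard + B2.ncard :=
      (Set.ncard_le_ncard hsub hfin).trans (Set.ncard_union_le _ _)
    have h2 : (S.ncard : ℝ) ≤ (B1.ncard : ℝ) + (B2.ncard : ℝ) := by exact_mod_cast h1
    linarith
  have hLL : L1 * L2 ≤ 2 * T := by
    have h1 := wd_cube (t := t) hP1 (e1_ne_zero ha)
    have h2 := wd_cube (t := t) hP2 ha2
    have hg4 : g ^ 4 ≤ 32 := by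
      have := g2_lt
      have h5 : 0 < g ^ 2 := pow_pos Real.goldenRatio_pos 2
      calc g ^ 4 = g ^ 2 * g ^ 2 := by ring
        _ ≤ 2.6181 * 2.6181 := mul_le_mul this.le this.le h5.le (by norm_num)
        _ ≤ 32 := by norm_num
    have hA : |(nm a : ℝ)| ^ 2 = e1 a ^ 2 * e2 a ^ 2 := by rw [sq_abs, nm_eq]; ring
    have hA0 : 0 < |(nm a : ℝ)| := by
      rw [nm_eq, abs_pos]; exact mul_ne_zero (e1_ne_zero ha) ha2
    have hq0 : 0 < P1 * P2 := mul_pos hP1 hP2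
    have hqe : |(nm (fP a b c) : ℝ)| = P1 * P2 := by rw [nm_eq, abs_of_pos hq0]
    have hhi : hi P1 * hi P2 = 4 * (P1 * P2) ^ (3 / 2 : ℝ) := by
      have e1' : (hi P1 * hi P2) ^ 2 = (4 * (P1 * P2) ^ (3 / 2 : ℝ)) ^ 2 := by
        rw [mul_pow, hi_sq hP1, hi_sq hP2, mul_pow, ← Real.rpow_natCast ((P1 * P2) ^ (3 / 2 : ℝ)) 2,
          ← Real.rpow_mul hq0.le]
        norm_num
        ring
      have h6 : 0 < hi P1 * hi P2 := mul_pos (hi_pos hP1) (hi_pos hP2)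
      exact (pow_left_inj₀ h6.le (by positivity) (by norm_num)).mp e1'
    have hT3 : T ^ 3 = t ^ 16 / (|(nm a : ℝ)| ^ 2 * (P1 * P2) ^ (3 / 2 : ℝ)) := by
      rw [hT, hqe, mul_pow, mul_pow, ← Real.rpow_natCast (t ^ (16 / 3 : ℝ)) 3,
        ← Real.rpow_mul ht0.le, ← Real.rpow_natCast (|(nm a : ℝ)| ^ (-(2 / 3) : ℝ)) 3,
        ← Real.rpow_mul hA0.le, ← Real.rpow_natCast ((P1 * P2) ^ (-(1 / 2) : ℝ)) 3,
        ← Real.rpow_mul hq0.le]
      have e1' : (16 / 3 : ℝ) * ((3 : ℕ) : ℝ) = ((16 : ℕ) : ℝ) := by norm_num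
      have e2' : (-(2 / 3) : ℝ) * ((3 : ℕ) : ℝ) = -((2 : ℕ) : ℝ) := by norm_num
      have e3' : (-(1 / 2) : ℝ) * ((3 : ℕ) : ℝ) = -(3 / 2) := by norm_num
      rw [e1', e2', e3', Real.rpow_natCast, Real.rpow_neg hA0.le, Real.rpow_natCast,
        Real.rpow_neg hq0.le]
      have : (P1 * P2) ^ (3 / 2 : ℝ) ≠ 0 := (Real.rpow_pos_of_pos hq0 _).ne'
      field_simp
    have h3 : (L1 * L2) ^ 3 ≤ (2 * T) ^ 3 := by
      have h4 : (L1 * L2) ^ 3 ≤ (g ^ 2 * t ^ 8 / (e1 a ^ 2 * hi P1)) *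
          (g ^ 2 * t ^ 8 / (e2 a ^ 2 * hi P2)) := by
        rw [mul_pow]
        exact mul_le_mul h1 h2 (by positivity) (by
          have := hi_pos hP1; positivity)
      have hr0 : 0 < (P1 * P2) ^ (3 / 2 : ℝ) := Real.rpow_pos_of_pos hq0 _
      have h5 : (g ^ 2 * t ^ 8 / (e1 a ^ 2 * hi P1)) * (g ^ 2 * t ^ 8 / (e2 a ^ 2 * hi P2)) =
          g ^ 4 / 4 * T ^ 3 := by
        rw [hT3, hA, div_mul_div_comm, show e1 a ^ 2 * hi P1 * (e2 a ^ 2 * hi P2) =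
          e1 a ^ 2 * e2 a ^ 2 * (hi P1 * hi P2) by ring, hhi]
        field_simp
      have h6 : g ^ 4 / 4 * T ^ 3 ≤ 8 * T ^ 3 :=
        mul_le_mul_of_nonneg_right (by linarith) (pow_nonneg hT0 3)
      calc (L1 * L2) ^ 3 ≤ g ^ 4 / 4 * T ^ 3 := by rw [← h5]; exact h4
        _ ≤ 8 * T ^ 3 := h6
        _ = (2 * T) ^ 3 := by ring
    exact (pow_le_pow_iff_left₀ (mul_nonneg hL1n hL2n) (by positivity) (by norm_num)).mp h3
  linarith

end Pool.Agent.Leo4.H37
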