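import Pool.Agent.Helper37_Leo4.Bnd

/-!
Squad leo4, module SCL: scaling of normalised quadruples to the compact region.
-/

set_option autoImplicit false

open NumberField IsDedekindDomain Module

namespace Pool.Agent.Leo4.H37

theorem rP_smul (s : ℝ) (w : ℝ × ℝ × ℝ × ℝ) : rP (s • w) = s ^ 2 * rP w := by
  simp only [rP, Prod.smul_fst, Prod.smul_snd, smul_eq_mul]; ring

theorem rM_smul (s : ℝ) (w : ℝ × ℝ × ℝ × ℝ) : rM (s • w) = s ^ 4 * rM w := by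
  simp only [rM, Prod.smul_fst, Prod.smul_snd, smul_eq_mul]; ring

theorem rX_smul (s : ℝ) (w : ℝ × ℝ × ℝ × ℝ) : rX (s • w) = s ^ 3 * rX w := by
  simp only [rX, Prod.smul_fst, Prod.smul_snd, smul_eq_mul]; ring

theorem rP_emb1 (v : V) : rP (emb v).1 = e1 (fP v.1 v.2.1 v.2.2.1) := by
  rw [e1_fP]; rfl

theorem rP_emb2 (v : V) : rP (emb v).2 = e2 (fP v.1 v.2.1 v.2.2.1) := by
  rw [e2_fP]; rfl

theorem rM_emb1 (v : V) : rM (emb v).1 = e1 (fM v.1 v.2.1 v.2.2.1 v.2.2.2) := by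
  rw [e1_fM]; rfl

theorem rM_emb2 (v : V) : rM (emb v).2 = e2 (fM v.1 v.2.1 v.2.2.1 v.2.2.2) := by
  rw [e2_fM]; rfl

theorem rX_emb1 (v : V) : rX (emb v).1 = e1 (fX v.1 v.2.1 v.2.2.1 v.2.2.2) := by
  rw [e1_fX]; rfl

theorem bal_mul {s x y : ℝ} (hs : 0 ≤ s) (h : Bal x y) : Bal (s * x) (s * y) := by
  obtain ⟨h1, h2, h3, h4⟩ := h
  refine ⟨mul_nonneg hs h1, mul_nonneg hs h2, ?_, ?_⟩
  · have := mul_le_mul_of_nonneg_left h3 hs; linarith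
  · have := mul_le_mul_of_nonneg_left h4 hs; linarith

theorem scl : SclStmt := by
  refine ⟨4, by norm_num, ?_⟩
  intro N η t v ht hN hv hη hA
  subst hN
  have hb := bnd ht hv
  have hti : 0 < t⁻¹ := inv_pos.mpr ht
  have htt : t⁻¹ * t = 1 := inv_mul_cancel₀ ht.ne'
  have s1 : (t⁻¹ • emb v).1 = t⁻¹ • (emb v).1 := rfl
  have s2 : (t⁻¹ • emb v).2 = t⁻¹ • (emb v).2 := rfl
  have f1 : (t⁻¹ • emb v).1.1 = t⁻¹ * e1 v.1 := rfl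
  have f2 : (t⁻¹ • emb v).2.1 = t⁻¹ * e2 v.1 := rfl
  have hs : 4 * (e1 (fP v.1 v.2.1 v.2.2.1) * e2 (fP v.1 v.2.1 v.2.2.1)) ^ 2 ≤
      e1 (fM v.1 v.2.1 v.2.2.1 v.2.2.2) * e2 (fM v.1 v.2.1 v.2.2.1 v.2.2.2) := by
    rw [← nm_eq, ← nm_eq]
    exact_mod_cast hv.small
  have hl : e1 (fM v.1 v.2.1 v.2.2.1 v.2.2.2) * e2 (fM v.1 v.2.1 v.2.2.1 v.2.2.2) ≤ t ^ 8 := by
    rw [← nm_eq]; exact hv.mle
  refine ⟨?_, ?_, ?_, ?_, ?_, ?_, ?_, ?_, ?_, ?_⟩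
  · rw [f1]; exact mul_nonneg hti.le hv.apos.le
  · rw [f1]
    have h1 := le_trans (le_abs_self _) hb.a1
    have h2 := mul_le_mul_of_nonneg_left h1 hti.le
    calc t⁻¹ * e1 v.1 ≤ t⁻¹ * (4 * t) := h2
      _ = 4 * (t⁻¹ * t) := by ring
      _ = 4 := by rw [htt, mul_one]
  · rw [f2, abs_mul, abs_of_pos hti]
    have h2 := mul_le_mul_of_nonneg_left hb.a2 hti.le
    calc t⁻¹ * |e2 v.1| ≤ t⁻¹ * (4 * t) := h2
      _ = 4 * (t⁻¹ * t) := by ring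
      _ = 4 := by rw [htt, mul_one]
  · rw [f1, f2]
    have h1 : |t⁻¹ * e1 v.1 * (t⁻¹ * e2 v.1)| = t⁻¹ ^ 2 * |(nm v.1 : ℝ)| := by
      rw [nm_eq, show t⁻¹ * e1 v.1 * (t⁻¹ * e2 v.1) = t⁻¹ ^ 2 * (e1 v.1 * e2 v.1) by ring,
        abs_mul, abs_of_nonneg (by positivity : (0:ℝ) ≤ t⁻¹ ^ 2)]
    rw [h1]
    have h2 := mul_le_mul_of_nonneg_left hA (by positivity : (0:ℝ) ≤ t⁻¹ ^ 2)
    calc η = η * (t⁻¹ * t) ^ 2 := by rw [htt]; ring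
      _ = t⁻¹ ^ 2 * (η * t ^ 2) := by ring
      _ ≤ _ := h2
  · obtain ⟨s, u, h1, h2, h3, h4, h5, h6⟩ := hv.bred
    refine ⟨s, u, h1, h2, h3, h4, ?_, ?_⟩
    · change t⁻¹ * e1 v.2.1 = t⁻¹ * e1 v.1 * (s + u * Real.goldenRatio)
      rw [h5]; ring
    · change t⁻¹ * e2 v.2.1 = t⁻¹ * e2 v.1 * (s + u * Real.goldenConj)
      rw [h6]; ring
  · rw [s1, rX_smul, rX_emb1]
    exact mul_nonneg (by positivity) hv.xpos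
  · rw [s1, s2, rP_smul, rP_smul, rP_emb1, rP_emb2]
    exact bal_mul (by positivity) hv.pbal
  · rw [s1, s2, rM_smul, rM_smul, rM_emb1, rM_emb2]
    exact bal_mul (by positivity) hv.mbal
  · rw [s1, s2, rM_smul, rM_smul, rM_emb1, rM_emb2, rP_smul, rP_smul, rP_emb1, rP_emb2]
    have h2 := mul_le_mul_of_nonneg_left hs (by positivity : (0:ℝ) ≤ t⁻¹ ^ 8)
    calc _ = t⁻¹ ^ 8 * (4 * (e1 (fP v.1 v.2.1 v.2.2.1) * e2 (fP v.1 v.2.1 v.2.2.1)) ^ 2) := by ring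
      _ ≤ t⁻¹ ^ 8 * (e1 (fM v.1 v.2.1 v.2.2.1 v.2.2.2) * e2 (fM v.1 v.2.1 v.2.2.1 v.2.2.2)) := h2
      _ = _ := by ring
  · rw [s1, s2, rM_smul, rM_smul, rM_emb1, rM_emb2]
    have h2 := mul_le_mul_of_nonneg_left hl (by positivity : (0:ℝ) ≤ t⁻¹ ^ 8)
    calc _ = t⁻¹ ^ 8 * (e1 (fM v.1 v.2.1 v.2.2.1 v.2.2.2) * e2 (fM v.1 v.2.1 v.2.2.1 v.2.2.2)) := by
          ring
      _ ≤ t⁻¹ ^ 8 * t ^ 8 := h2
      _ = (t⁻¹ * t) ^ 8 := by ring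
      _ = 1 := by rw [htt, one_pow]

end Pool.Agent.Leo4.H37
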